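import Pool.Agent.Results.MP_8707bd_ag.AllDegreesPositiveProportion
import Pool.Agent.TH847.LD.Primes
import Pool.Agent.H534R3.UD
import Pool.Agent.H767R2.Weyl

/-!
# Uniform fat points: `AH₂(d)` for all degrees `d`, for prime and for polynomial multiplicities

The hand-in `AllDegreesPositiveProportion` of this problem shows, for a non-square `r ≥ 10`: for all
multiplicities `m` outside a set of upper density at most `bad r < 1` the scheme `m Y` of `r` general
points of the plane is `AH₂(d)` for EVERY degree `d`. (For `r ≥ 37` and `r = 13, 21` there are no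
exceptional multiplicities: `EquivalenceFromThirtySeven`. So the question is about `r < 37`.)

A positive proportion of all the multiplicities says nothing about a thin set of multiplicities. Here
the multiplicities are the terms of a sequence `s`, and the same bounds are proved for the proportion of
the exceptional terms, for every sequence `s` whose multiples by any irrational number have exponential
sums `o(N)` (`Good`). The prime numbers and the values of every nonconstant polynomial with integral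
coefficients are such sequences (theorems of Vinogradov and Weyl).
-/

set_option autoImplicit false

open Filter Topology Finset

namespace Pool.Agent.Results.MP_8707bd_ag.PrimeMultiplicities

open Pool.Agent.Results.MP_8707bd_ag.AllDegreesPositiveProportion

/-- the multiples of the sequence by every irrational number have exponential sums `o(N)` -/
def Good (s : ℕ → ℕ) : Prop := ∀ t : ℝ, Irrational t →
  Tendsto (fun N : ℕ => ‖∑ n ∈ range N, Complex.exp (2 * Real.pi * Complex.I * (t * (s n : ℝ) : ℝ))‖ / N)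
    atTop (𝓝 0)

/-- the number of the terms `m = s n`, `n < N`, which are positive multiplicities such that `m Y` is not
`AH₂(d)` for all degrees `d`, `Y` a general set of `r` points -/
noncomputable def exceptions (r : ℕ) (s : ℕ → ℕ) (N : ℕ) : ℕ :=
  Set.ncard {n : ℕ | n < N ∧ 0 < s n ∧ ¬ AllDegrees r (s n)}

lemma window {r : ℕ} {A B : ℝ} (h01 : (A + B) / 2 < 1)
    (h : ∀ m : ℕ, 0 < m → ¬ AllDegrees r m →
      ∃ d : ℕ, -A ≤ 2 * (d : ℝ) + 3 - Real.sqrt r * (2 * m + 1) ∧
        2 * (d : ℝ) + 3 - Real.sqrt r * (2 * m + 1) ≤ B) (m : ℕ) (hm : 0 < m)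
    (hb : ¬ AllDegrees r m) :
    Int.fract (Real.sqrt r * m + ((Real.sqrt r - 3) / 2 + B / 2)) ≤ (A + B) / 2 := by
  obtain ⟨d, h1, h2⟩ := h m hm hb
  have h3 : 0 ≤ Real.sqrt r * m + ((Real.sqrt r - 3) / 2 + B / 2) - d := by linarith
  have h4 : Real.sqrt r * m + ((Real.sqrt r - 3) / 2 + B / 2) - d ≤ (A + B) / 2 := by linarith
  have h5 : Int.fract (Real.sqrt r * m + ((Real.sqrt r - 3) / 2 + B / 2)) =
      Real.sqrt r * m + ((Real.sqrt r - 3) / 2 + B / 2) - d := by
    rw [Int.fract_eq_iff]
    exact ⟨h3, by linarith, (d : ℤ), by push_cast; ring⟩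
  rw [h5]
  exact h4

lemma weyl_of {s : ℕ → ℕ} (hs : Good s) {ξ : ℝ} (hξ : Irrational ξ) (c : ℝ) :
    Pool.Agent.H534R3.UDist.Weyl (fun n => ξ * (s n : ℝ) + c) := by
  intro h hh
  have h1 := hs ((h : ℝ) * ξ) (hξ.natCast_mul (by omega))
  refine h1.congr fun N => ?_
  congr 1
  have h2 : ∑ n ∈ range N, Pool.Agent.H534R3.UDist.ee ((h : ℝ) * (ξ * (s n : ℝ) + c)) =
      Pool.Agent.H534R3.UDist.ee ((h : ℝ) * c) * ∑ n ∈ range N,
        Complex.exp (2 * Real.pi * Complex.I * ((h : ℝ) * ξ * (s n : ℝ) : ℝ)) := by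
    rw [Finset.mul_sum]
    refine Finset.sum_congr rfl fun n _ => ?_
    unfold Pool.Agent.H534R3.UDist.ee
    rw [← Complex.exp_add]
    congr 1
    push_cast
    ring
  rw [h2, norm_mul, Pool.Agent.H534R3.UDist.norm_ee, one_mul]

lemma count_le {s : ℕ → ℕ} (hs : Good s) {r : ℕ} (hr : ¬ IsSquare r) {A B : ℝ}
    (hAB : 0 ≤ (A + B) / 2) (h01 : (A + B) / 2 < 1)
    (h : ∀ m : ℕ, 0 < m → ¬ AllDegrees r m →
      ∃ d : ℕ, -A ≤ 2 * (d : ℝ) + 3 - Real.sqrt r * (2 * m + 1) ∧
        2 * (d : ℝ) + 3 - Real.sqrt r * (2 * m + 1) ≤ B) {δ : ℝ} (hδ : 0 < δ) :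
    ∀ᶠ N : ℕ in atTop, (exceptions r s N : ℝ) ≤ ((A + B) / 2 + δ) * N := by
  classical
  have hirr : Irrational (Real.sqrt r) := irrational_sqrt_natCast_iff.2 hr
  have h1 := Pool.Agent.H534R3.UDist.upper (fun n => Real.sqrt r * (s n : ℝ) +
    ((Real.sqrt r - 3) / 2 + B / 2)) (weyl_of hs hirr _) 0 ((A + B) / 2 + δ / 2) (δ / 2)
    (by linarith) (by linarith)
  filter_upwards [h1] with N hN
  have h2 : exceptions r s N ≤ Pool.Agent.H534R3.UDist.cnt (fun n => Real.sqrt r * (s n : ℝ) +
      ((Real.sqrt r - 3) / 2 + B / 2)) 0 ((A + B) / 2 + δ / 2) N := by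
    unfold exceptions Pool.Agent.H534R3.UDist.cnt
    rw [← Set.ncard_coe_finset]
    refine Set.ncard_le_ncard (fun n hn => ?_) (Finset.finite_toSet _)
    obtain ⟨hn1, hn2, hn3⟩ := hn
    rw [Finset.mem_coe, Finset.mem_filter, Finset.mem_range]
    exact ⟨hn1, Int.fract_nonneg _, (window h01 h (s n) hn2 hn3).trans_lt (by linarith)⟩
  calc (exceptions r s N : ℝ) ≤ _ := by exact_mod_cast h2
    _ ≤ _ := hN
    _ = ((A + B) / 2 + δ) * N := by ring

/-- the primes (Vinogradov) -/
theorem good_primes : Good (Nat.nth Nat.Prime) := by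
  classical
  intro t ht
  have hinf : (Set.ofPred Nat.Prime).Infinite := Nat.infinite_setOfPred_prime
  have h1 := tendsto_zero_iff_norm_tendsto_zero.1 (Pool.Agent.TH847.LD.primes_good t ht)
  have hset : ∀ M : ℕ, (range (Nat.nth Nat.Prime M)).filter Nat.Prime =
      (range M).image (Nat.nth Nat.Prime) := by
    intro M
    induction M with
    | zero =>
      rw [Nat.nth_prime_zero_eq_two]
      rfl
    | succ M ih =>
      rw [Nat.filter_range_nth_eq_insert_of_infinite hinf, ih, Finset.range_add_one,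
        Finset.image_insert]
  have hicc : ∀ M : ℕ, (Icc 1 (Nat.nth Nat.Prime M - 1)).filter Nat.Prime =
      (range M).image (Nat.nth Nat.Prime) := by
    intro M
    rw [← hset M]
    ext p
    simp only [Finset.mem_filter, Finset.mem_Icc, Finset.mem_range]
    constructor
    · rintro ⟨⟨h1, h2⟩, h3⟩
      exact ⟨by omega, h3⟩
    · rintro ⟨h1, h3⟩
      exact ⟨⟨h3.one_lt.le, by omega⟩, h3⟩
  have hinj : Function.Injective (Nat.nth Nat.Prime) := Nat.nth_injective hinf
  have htop : Tendsto (fun M : ℕ => Nat.nth Nat.Prime M - 1) atTop atTop := by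
    refine tendsto_atTop.2 fun b => ?_
    filter_upwards [eventually_ge_atTop (b + 1)] with M hM
    have := (Nat.nth_strictMono hinf).le_apply (x := M)
    omega
  refine (h1.comp htop).congr fun M => ?_
  have h5 : Pool.Agent.TH847.LD.FT (Pool.Agent.TH847.LD.μP (Nat.nth Nat.Prime M - 1)) t =
      ((1 / (M : ℝ) : ℝ) : ℂ) * ∑ n ∈ range M,
        Complex.exp (2 * Real.pi * Complex.I * (t * (Nat.nth Nat.Prime n : ℝ) : ℝ)) := by
    unfold Pool.Agent.TH847.LD.FT
    rw [Pool.Agent.TH847.LD.sum_μP _ (fun (m : ℤ) (x : ℝ) =>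
      (x : ℂ) * Pool.Agent.H332R2.Lit.e (m * t)) (fun m => by simp), hicc M,
      Finset.card_image_of_injective _ hinj, Finset.card_range,
      Finset.sum_image (fun a _ b _ h => hinj h), Finset.mul_sum]
    refine Finset.sum_congr rfl fun p _ => ?_
    congr 1
    unfold Pool.Agent.H332R2.Lit.e
    congr 1
    push_cast
    ring
  rw [Function.comp_apply, h5, norm_mul, Complex.norm_real, Real.norm_eq_abs,
    abs_of_nonneg (by positivity)]
  ring

/-- the values of a nonconstant polynomial (Weyl) -/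
theorem good_polynomial (q : Polynomial ℤ) (hq : 0 < q.natDegree) (s : ℕ → ℕ)
    (hs : ∀ n : ℕ, (s n : ℤ) = q.eval (n : ℤ)) : Good s := by
  intro t ht
  have hinj : Function.Injective (Int.castRingHom ℝ) := Int.cast_injective
  have hq0 : q ≠ 0 := by
    rintro rfl
    simp at hq
  obtain ⟨k, hk⟩ : ∃ k, q.natDegree = k + 1 := ⟨q.natDegree - 1, by omega⟩
  have h1 : (Polynomial.C t * q.map (Int.castRingHom ℝ)).natDegree = k + 1 := by
    rw [Polynomial.natDegree_C_mul ht.ne_zero, Polynomial.natDegree_map_eq_of_injective hinj, hk]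
  have h2 : Irrational (Polynomial.C t * q.map (Int.castRingHom ℝ)).leadingCoeff := by
    rw [Polynomial.leadingCoeff_mul, Polynomial.leadingCoeff_C,
      Polynomial.leadingCoeff_map_of_injective hinj]
    exact ht.mul_intCast (Polynomial.leadingCoeff_ne_zero.2 hq0)
  have h3 := (Pool.Agent.H767R2.tendsto_cav_iff _).1 (Pool.Agent.H767R2.weyl_leading k _ h1 h2)
  refine h3.congr fun N => ?_
  congr 2
  refine Finset.sum_congr rfl fun n _ => ?_
  unfold Pool.Agent.H767R2.ee
  congr 1
  have h4 : (Polynomial.C t * q.map (Int.castRingHom ℝ)).eval (n : ℝ) = t * (s n : ℝ) := by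
    rw [Polynomial.eval_mul, Polynomial.eval_C, Polynomial.eval_natCast_map]
    have := hs n
    have h5 : ((q.eval (n : ℤ) : ℤ) : ℝ) = (s n : ℝ) := by
      rw [← this]
      push_cast
      rfl
    rw [← h5]
    rfl
  rw [h4]
  ring

/-- **Main theorem.** (1) `bad r < 1` for `r ≥ 10`, `bad 10 < 0.163`. (2) Let `s` be a good sequence
and let `r ≥ 10` not be a square. Among the first `N` terms `m` of the sequence all but at most
`(bad r + δ) N` are such that, for a general set `Y` of `r` points, `m Y` is `AH₂(d)` for ALL degrees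
`d`. (3) The sequence of the primes and the sequences of the values of nonconstant polynomials with
integral coefficients (with values `≥ 0`) are good. -/
theorem result :
    ((∀ r : ℕ, 10 ≤ r → bad r < 1) ∧ bad 10 < 0.163) ∧
    (∀ s : ℕ → ℕ, Good s → ∀ r : ℕ, 10 ≤ r → ¬ IsSquare r → ∀ δ : ℝ, 0 < δ →
      ∀ᶠ N : ℕ in atTop, (exceptions r s N : ℝ) ≤ (bad r + δ) * N) ∧
    Good (Nat.nth Nat.Prime) ∧
    (∀ q : Polynomial ℤ, 0 < q.natDegree → ∀ s : ℕ → ℕ, (∀ n : ℕ, (s n : ℤ) = q.eval (n : ℤ)) →
      Good s) := by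
  obtain ⟨-, hbad, h10, -⟩ := AllDegreesPositiveProportion.result
  refine ⟨⟨hbad, h10⟩, fun s hs r hr hsq δ hδ => ?_, good_primes, good_polynomial⟩
  obtain ⟨h1, h2, h3⟩ := TH885.NW.win_len hr
  have h4 : (TH885.NW.loW r + TH885.NW.upW r) / 2 = bad r := rfl
  have h5 := count_le hs hsq (A := TH885.NW.loW r) (B := TH885.NW.upW r) (by linarith)
    (by linarith) (fun m hm hb => by
      by_contra hcon
      push Not at hcon
      apply hb
      obtain ⟨F, hF, hF'⟩ := TH885.NW.exp_uni2 (L := ℂ) hr hm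
      refine allDegrees_of ⟨F, hF, fun P hP d => hF' P hP d ?_⟩
      rcases le_or_gt (-TH885.NW.loW r) (2 * (d : ℝ) + 3 - Real.sqrt r * (2 * m + 1)) with h4 | h4
      · exact Or.inl (hcon d h4)
      · exact Or.inr h4) hδ
  rwa [h4] at h5

end Pool.Agent.Results.MP_8707bd_ag.PrimeMultiplicities
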